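import Pool.Agent.Helper8_HK.Stmt1

namespace Pool.Agent.HK.H85

open Polynomial

theorem alg : ALGStmt := by
  intro H _ _ _ ι lam hlam
  by_contra hS
  obtain ⟨M, hM, hSM⟩ :=
    (eq_top_or_exists_le_coatom (Submodule.span ℤ (Set.range lam))).resolve_left hS
  have hsimp : IsSimpleModule ℤ ((H →ₗ[ℤ] ℤ) ⧸ M) := isSimpleModule_iff_isCoatom.mpr hM
  obtain ⟨I, hI, ⟨e⟩⟩ := isSimpleModule_iff_quot_maximal.mp hsimp
  have hI0 : I ≠ ⊥ := Ring.ne_bot_of_isMaximal_of_not_isField hI Int.not_isField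
  have hp : Prime (Submodule.IsPrincipal.generator I) :=
    Submodule.IsPrincipal.prime_generator_of_isPrime I hI0
  set g : ℤ := Submodule.IsPrincipal.generator I with hg
  have hIg : Ideal.span {g} = I := Ideal.span_singleton_generator I
  have hl : (g.natAbs).Prime := Int.prime_iff_natAbs_prime.mp hp
  have hmem : ∀ z : ℤ, z ∈ I ↔ ((g.natAbs : ℕ) : ℤ) ∣ z := by
    intro z
    rw [← hIg, Ideal.mem_span_singleton]
    exact Int.natAbs_dvd.symm
  -- the functional on the dual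
  let f : (H →ₗ[ℤ] ℤ) →ₗ[ℤ] (ℤ ⧸ I) := (e : ((H →ₗ[ℤ] ℤ) ⧸ M) →ₗ[ℤ] (ℤ ⧸ I)).comp M.mkQ
  have hfsurj : Function.Surjective f := by
    intro z
    obtain ⟨w, hw⟩ := M.mkQ_surjective (e.symm z)
    exact ⟨w, by simp only [f, LinearMap.comp_apply, hw]; simp⟩
  have hf0 : ∀ i, f (lam i) = 0 := by
    intro i
    have h1 : lam i ∈ M := hSM (Submodule.subset_span ⟨i, rfl⟩)
    have h2 : M.mkQ (lam i) = 0 := by simpa using h1
    simp only [f, LinearMap.comp_apply, h2, map_zero]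
  let b := Module.Free.chooseBasis ℤ H
  choose a ha using fun j => Ideal.Quotient.mk_surjective (I := I) (f (b.coord j))
  let x : H := ∑ j, a j • b j
  have hx : ∀ φ : H →ₗ[ℤ] ℤ, f φ = Ideal.Quotient.mk I (φ x) := by
    intro φ
    have h1 : φ = ∑ j, (φ (b j)) • b.coord j := by
      refine b.ext fun i => ?_
      simp
    have h2 : f φ = ∑ j, (φ (b j)) • f (b.coord j) := by
      conv_lhs => rw [h1]
      simp only [map_sum, map_smul]
    rw [h2]
    have h3 : φ x = ∑ j, φ (b j) * a j := by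
      simp only [x, map_sum, map_smul, smul_eq_mul]
      exact Finset.sum_congr rfl fun j _ => mul_comm _ _
    rw [h3, map_sum]
    refine Finset.sum_congr rfl fun j _ => ?_
    rw [← ha j, map_mul]
    simp [zsmul_eq_mul]
  obtain ⟨y, hy⟩ := hlam g.natAbs hl x (fun i => by
    rw [← hmem, ← Ideal.Quotient.eq_zero_iff_mem, ← hx]
    exact hf0 i)
  have hall : ∀ φ : H →ₗ[ℤ] ℤ, f φ = 0 := by
    intro φ
    rw [hx, Ideal.Quotient.eq_zero_iff_mem, hmem, hy, map_smul, smul_eq_mul]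
    exact dvd_mul_right _ _
  obtain ⟨φ, hφ⟩ := hfsurj 1
  rw [hall] at hφ
  have : Nontrivial (ℤ ⧸ I) := Ideal.Quotient.nontrivial_iff.mpr hI.ne_top
  exact zero_ne_one hφ

end Pool.Agent.HK.H85
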