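import Pool.Agent.Helper8_HK.Stmt2

namespace Pool.Agent.HK.H85

/-- The fibres of a surjective homomorphism of finite groups all have the same size. -/
lemma card_fib {A B : Type} [AddCommGroup A] [AddCommGroup B] [Fintype A] [Fintype B]
    [DecidableEq B] (f : A →+ B) (hf : Function.Surjective f) (b : B) :
    (Finset.univ.filter fun a => f a = b).card * Fintype.card B = Fintype.card A := by
  classical
  have h1 : ∀ c : B, (Finset.univ.filter fun a => f a = c).card
      = (Finset.univ.filter fun a => f a = b).card := by
    intro c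
    obtain ⟨a0, ha0⟩ := hf (b - c)
    refine Finset.card_bij (fun a _ => a + a0) ?_ ?_ ?_
    · intro a ha
      simp only [Finset.mem_filter, Finset.mem_univ, true_and] at ha ⊢
      rw [map_add, ha, ha0]; abel
    · intro a _ a' _ h
      exact add_right_cancel h
    · intro a ha
      simp only [Finset.mem_filter, Finset.mem_univ, true_and] at ha
      refine ⟨a - a0, ?_, by simp⟩
      simp only [Finset.mem_filter, Finset.mem_univ, true_and]
      rw [map_sub, ha, ha0]; abel
  have h2 : Fintype.card A = ∑ c : B, (Finset.univ.filter fun a => f a = c).card := by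
    rw [← Finset.card_univ]
    exact Finset.card_eq_sum_card_fiberwise (fun a _ => Finset.mem_univ _)
  rw [h2, Finset.sum_congr rfl (fun c _ => h1 c), Finset.sum_const, Finset.card_univ,
    smul_eq_mul, mul_comm]

theorem rad : RADStmt := by
  intro F L k _ _ _ _ _ _ _ hfin τ hτ hq E hE0 hinv hS
  classical
  set q : ℕ := Fintype.card F with hqdef
  have hqpos : 0 < q := Fintype.card_pos
  have : FiniteDimensional F L := Module.finite_of_finrank_pos (by omega)
  have hcL : Fintype.card L = q ^ 4 := by
    rw [Module.card_eq_pow_finrank (K := F) (V := L), hfin]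
  set g : L → k := fun κ => E κ⁻¹ with hg
  have hg0 : g 0 = 0 := by simp [hg, hE0]
  have hginv : ∀ (a : F) (x : L), a ≠ 0 → g (algebraMap F L a * x) = g x := by
    intro a x ha
    simp only [hg, mul_inv, ← map_inv₀]
    exact hinv a⁻¹ x⁻¹ (inv_ne_zero ha)
  -- linear functionals
  have hlin : ∀ z : L, z ≠ 0 → ∃ M : L, τ (z * M) = 1 := by
    intro z hz
    obtain ⟨w, hw⟩ : ∃ w, τ w ≠ 0 := by
      by_contra h
      push Not at h
      exact hτ (LinearMap.ext h)
    refine ⟨z⁻¹ * ((τ w)⁻¹ • w), ?_⟩
    rw [← mul_assoc, mul_inv_cancel₀ hz, one_mul, map_smul, smul_eq_mul, inv_mul_cancel₀ hw]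
  have hsm : ∀ (c : F) (z M : L), τ (algebraMap F L c * z * M) = c * τ (z * M) := by
    intro c z M
    rw [mul_assoc, ← Algebra.smul_def, map_smul, smul_eq_mul]
  -- first count
  have hN1 : ∀ y : L, y ≠ 0 → (Finset.univ.filter fun M : L => τ (y * M) = 1).card = q ^ 3 := by
    intro y hy
    let f : L →+ F := (τ.toAddMonoidHom).comp (AddMonoidHom.mulLeft y)
    have hf : Function.Surjective f := by
      intro t
      obtain ⟨M, hM⟩ := hlin y hy
      refine ⟨t • M, ?_⟩
      show τ (y * (t • M)) = t
      rw [mul_smul_comm, map_smul, hM, smul_eq_mul, mul_one]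
    have h := card_fib f hf 1
    rw [hcL] at h
    have h2 : (Finset.univ.filter fun a => f a = 1).card = q ^ 3 := by
      have : (Finset.univ.filter fun a => f a = 1).card * q = q ^ 3 * q := by
        rw [← hqdef] at h
        rw [h]; ring
      exact Nat.eq_of_mul_eq_mul_right hqpos this
    exact h2
  -- second count
  have hN2 : ∀ y κ : L, y ≠ 0 → (∀ c : F, κ ≠ algebraMap F L c * y) →
      (Finset.univ.filter fun M : L => τ (y * M) = 1 ∧ τ (κ * M) = 1).card = q ^ 2 := by
    intro y κ hy hκ
    let f : L →+ F × F := AddMonoidHom.prod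
      ((τ.toAddMonoidHom).comp (AddMonoidHom.mulLeft y))
      ((τ.toAddMonoidHom).comp (AddMonoidHom.mulLeft κ))
    have hfa : ∀ M, f M = (τ (y * M), τ (κ * M)) := fun M => rfl
    -- choose M0 with τ(y M0) = 0 and τ (κ M0) = 1
    have hker : ∃ M0, τ (y * M0) = 0 ∧ τ (κ * M0) ≠ 0 := by
      by_contra hcon
      push Not at hcon
      obtain ⟨M1, hM1⟩ := hlin y hy
      have hz : κ - algebraMap F L (τ (κ * M1)) * y ≠ 0 := sub_ne_zero.mpr (hκ _)
      obtain ⟨M, hM⟩ := hlin _ hz
      -- M - τ(yM) M1 is in the kernel of y
      have e1 : τ (y * (M - (τ (y * M)) • M1)) = 0 := by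
        rw [mul_sub, map_sub, mul_smul_comm, map_smul, hM1, smul_eq_mul, mul_one, sub_self]
      have e2 := hcon _ e1
      rw [mul_sub, map_sub, mul_smul_comm, map_smul, smul_eq_mul] at e2
      rw [sub_mul, map_sub, hsm] at hM
      have : (0 : F) = 1 := by
        rw [← hM, ← e2]; ring
      exact zero_ne_one this
    obtain ⟨M0, hM0, hM0'⟩ := hker
    obtain ⟨M1, hM1⟩ := hlin y hy
    have hf : Function.Surjective f := by
      rintro ⟨s, t⟩
      refine ⟨s • M1 + ((t - s * τ (κ * M1)) * (τ (κ * M0))⁻¹) • M0, ?_⟩
      rw [hfa]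
      simp only [mul_add, map_add, mul_smul_comm, map_smul, smul_eq_mul, hM0, hM1, mul_one,
        mul_zero, add_zero, mul_assoc, inv_mul_cancel₀ hM0', Prod.mk.injEq, true_and]
      ring
    have h := card_fib f hf (1, 1)
    rw [hcL, Fintype.card_prod, ← hqdef] at h
    have h2 : (Finset.univ.filter fun a => f a = (1, 1)).card = q ^ 2 := by
      have : (Finset.univ.filter fun a => f a = (1, 1)).card * (q * q) = q ^ 2 * (q * q) := by
        rw [h]; ring
      exact Nat.eq_of_mul_eq_mul_right (Nat.mul_pos hqpos hqpos) this
    rw [← h2]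
    congr 1
    ext M
    simp [hfa, Prod.ext_iff]
  -- the number of M as an element of k
  have hN : ∀ y κ : L, y ≠ 0 →
      (∑ M : L, if τ (y * M) = 1 then (if τ (κ * M) = 1 then (1 : k) else 0) else 0) =
        (q : k) ^ 2 + (if κ = y then (q : k) ^ 3 else 0)
          - (q : k) ^ 2 * ∑ c : F, (if κ = algebraMap F L c * y then (1 : k) else 0) := by
    intro y κ hy
    by_cases hκ : ∃ c : F, κ = algebraMap F L c * y
    · obtain ⟨c, rfl⟩ := hκ
      have hsum : ∑ c' : F, (if algebraMap F L c * y = algebraMap F L c' * y then (1 : k) else 0)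
          = 1 := by
        rw [Finset.sum_eq_single c]
        · simp
        · intro c' _ hc'
          rw [if_neg]
          intro h
          exact hc' ((algebraMap F L).injective (mul_right_cancel₀ hy h)).symm
        · intro h; exact absurd (Finset.mem_univ _) h
      rw [hsum]
      by_cases hc : c = 1
      · subst hc
        simp only [map_one, one_mul, if_true]
        have : (∑ M : L, if τ (y * M) = 1 then (if τ (y * M) = 1 then (1 : k) else 0) else 0)
            = ((Finset.univ.filter fun M : L => τ (y * M) = 1).card : k) := by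
          rw [Finset.card_eq_sum_ones, Nat.cast_sum, Finset.sum_filter]
          refine Finset.sum_congr rfl fun M _ => ?_
          by_cases h : τ (y * M) = 1 <;> simp [h]
        rw [this, hN1 y hy]
        push_cast
        ring
      · have hne : algebraMap F L c * y ≠ y := by
          intro h
          apply hc
          have : algebraMap F L c * y = algebraMap F L 1 * y := by rw [h]; simp
          exact (algebraMap F L).injective (mul_right_cancel₀ hy this)
        rw [if_neg hne]
        rw [Finset.sum_eq_zero]
        · ring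
        · intro M _
          by_cases h : τ (y * M) = 1
          · rw [if_pos h, if_neg]
            rw [hsm, h, mul_one]
            exact hc
          · rw [if_neg h]
    · push Not at hκ
      have hsum : ∑ c' : F, (if κ = algebraMap F L c' * y then (1 : k) else 0) = 0 :=
        Finset.sum_eq_zero fun c _ => if_neg (hκ c)
      have hne : κ ≠ y := by
        have := hκ 1
        simpa using this
      rw [hsum, if_neg hne]
      have : (∑ M : L, if τ (y * M) = 1 then (if τ (κ * M) = 1 then (1 : k) else 0) else 0)
            = ((Finset.univ.filter fun M : L => τ (y * M) = 1 ∧ τ (κ * M) = 1).card : k) := by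
        rw [Finset.card_eq_sum_ones, Nat.cast_sum, Finset.sum_filter]
        refine Finset.sum_congr rfl fun M _ => ?_
        by_cases h : τ (y * M) = 1 <;> by_cases h' : τ (κ * M) = 1 <;> simp [h, h']
      rw [this, hN2 y κ hy hκ]
      push_cast
      ring
  -- the main computation
  have hmain : ∀ y : L, y ≠ 0 → g y = - ∑ κ : L, g κ := by
    intro y hy
    have h1 : ∑ M : L, (if τ (y * M) = 1 then
        ∑ κ : L, (if τ (κ * M) = 1 then g κ else 0) else 0) = 0 := by
      refine Finset.sum_eq_zero fun M _ => ?_
      by_cases h : τ (y * M) = 1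
      · rw [if_pos h]
        have hM : M ≠ 0 := by
          rintro rfl
          rw [mul_zero, map_zero] at h
          exact zero_ne_one h
        exact hS M hM
      · rw [if_neg h]
    have h2 : ∑ M : L, (if τ (y * M) = 1 then
        ∑ κ : L, (if τ (κ * M) = 1 then g κ else 0) else 0)
        = ∑ κ : L, g κ * ∑ M : L,
          (if τ (y * M) = 1 then (if τ (κ * M) = 1 then (1 : k) else 0) else 0) := by
      simp only [Finset.mul_sum]
      rw [Finset.sum_comm]
      refine Finset.sum_congr rfl fun M _ => ?_
      by_cases h : τ (y * M) = 1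
      · simp only [if_pos h]
        refine Finset.sum_congr rfl fun κ _ => ?_
        by_cases h' : τ (κ * M) = 1 <;> simp [h']
      · simp [if_neg h]
    rw [h2] at h1
    simp only [hN y _ hy] at h1
    have h3 : ∑ κ : L, g κ * ((q : k) ^ 2 + (if κ = y then (q : k) ^ 3 else 0)
          - (q : k) ^ 2 * ∑ c : F, (if κ = algebraMap F L c * y then (1 : k) else 0))
        = (q : k) ^ 2 * (∑ κ : L, g κ) + (q : k) ^ 3 * g y
          - (q : k) ^ 2 * ∑ c : F, g (algebraMap F L c * y) := by
      simp only [mul_sub, mul_add, Finset.sum_sub_distrib, Finset.sum_add_distrib]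
      congr 1
      · congr 1
        · rw [Finset.mul_sum]
          exact Finset.sum_congr rfl fun κ _ => mul_comm _ _
        · rw [Finset.sum_eq_single y]
          · simp [mul_comm]
          · intro κ _ hκ
            simp [hκ]
          · intro h; exact absurd (Finset.mem_univ _) h
      · simp only [Finset.mul_sum]
        rw [Finset.sum_comm]
        refine Finset.sum_congr rfl fun c _ => ?_
        rw [Finset.sum_eq_single (algebraMap F L c * y)]
        · simp [mul_comm]
        · intro κ _ hκ
          simp [hκ]
        · intro h; exact absurd (Finset.mem_univ _) h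
    rw [h3] at h1
    have h4 : ∑ c : F, g (algebraMap F L c * y) = ((q : k) - 1) * g y := by
      have e1 : ∑ c : F, g (algebraMap F L c * y) = ∑ c : F, (if c = 0 then 0 else g y) := by
        refine Finset.sum_congr rfl fun c _ => ?_
        by_cases hc : c = 0
        · subst hc; simp [hg0]
        · rw [if_neg hc, hginv c y hc]
      rw [e1]
      have e2 : ∑ c : F, (if c = 0 then (0 : k) else g y)
          = ∑ c : F, (g y - (if c = 0 then g y else 0)) := by
        refine Finset.sum_congr rfl fun c _ => ?_
        by_cases hc : c = 0 <;> simp [hc]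
      rw [e2, Finset.sum_sub_distrib, Finset.sum_const, Finset.card_univ, ← hqdef,
        Finset.sum_ite_eq' Finset.univ (0 : F) (fun _ => g y)]
      simp only [Finset.mem_univ, if_true, nsmul_eq_mul]
      ring
    rw [h4] at h1
    have h5 : (q : k) ^ 2 * (g y + ∑ κ : L, g κ) = 0 := by
      rw [← h1]; ring
    rcases mul_eq_zero.mp h5 with h6 | h6
    · exact absurd h6 (pow_ne_zero 2 hq)
    · exact eq_neg_of_add_eq_zero_left h6
  have hSig : ∑ κ : L, g κ = 0 := by
    set sg : k := ∑ κ : L, g κ with hsg
    have h1 : sg = ∑ κ : L, (if κ = 0 then 0 else - sg) := by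
      rw [hsg]
      refine Finset.sum_congr rfl fun κ _ => ?_
      by_cases hκ : κ = 0
      · rw [if_pos hκ, hκ, hg0]
      · rw [if_neg hκ]
        exact hmain κ hκ
    have h2 : ∑ κ : L, (if κ = 0 then (0 : k) else - sg)
        = ∑ κ : L, (- sg - (if κ = 0 then - sg else 0)) := by
      refine Finset.sum_congr rfl fun c _ => ?_
      by_cases hc : c = 0 <;> simp [hc]
    rw [h2, Finset.sum_sub_distrib, Finset.sum_const, Finset.card_univ, hcL,
      Finset.sum_ite_eq' Finset.univ (0 : L) (fun _ => - sg)] at h1
    simp only [Finset.mem_univ, if_true, nsmul_eq_mul] at h1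
    push_cast at h1
    have h3 : (q : k) ^ 4 * sg = 0 := by
      have := h1
      linear_combination this
    rcases mul_eq_zero.mp h3 with h4 | h4
    · exact absurd h4 (pow_ne_zero 4 hq)
    · exact h4
  intro x
  by_cases hx : x = 0
  · rw [hx]; exact hE0
  · have h := hmain x⁻¹ (inv_ne_zero hx)
    rw [hSig, neg_zero] at h
    simpa [hg] using h

end Pool.Agent.HK.H85
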